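import Pool.Agent.W555.KS.Defs2

/-!
# Project KS, part BAL0 (MP_55fadc_co)
-/

set_option autoImplicit false

namespace Pool.Agent.W932.KS.Bal0

open Pool.Agent.W555.KS Finset MvPolynomial

variable {n δ : ℕ}

/-- exponent of the rainbow monomial -/
noncomputable def mon (w : Fin (δ + 1) → Fin n) : Fin n →₀ ℕ := ∑ i, Finsupp.single (w i) 1

/-- the same without colour `i0` -/
noncomputable def moff (i0 : Fin (δ + 1)) (w : Fin (δ + 1) → Fin n) : Fin n →₀ ℕ :=
  ∑ i ∈ univ.erase i0, Finsupp.single (w i) 1

theorem mon_eq (i0 : Fin (δ + 1)) (w : Fin (δ + 1) → Fin n) :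
    mon w = Finsupp.single (w i0) 1 + moff i0 w := by
  unfold mon moff
  exact (add_sum_erase univ (fun i => (Finsupp.single (w i) 1 : Fin n →₀ ℕ)) (mem_univ i0)).symm

theorem mem_supp_mon (w : Fin (δ + 1) → Fin n) (v : Fin n) :
    v ∈ (mon w).support ↔ ∃ i, w i = v := by
  unfold mon
  rw [Finsupp.mem_support_iff, Finsupp.finsetSum_apply]
  constructor
  · intro h
    obtain ⟨i, -, hi⟩ := Finset.exists_ne_zero_of_sum_ne_zero h
    refine ⟨i, ?_⟩
    by_contra hne
    exact hi (Finsupp.single_eq_of_ne (fun h => hne h.symm))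
  · rintro ⟨i, rfl⟩
    have h1 : (Finsupp.single (w i) 1 : Fin n →₀ ℕ) (w i) ≤
        ∑ j, (Finsupp.single (w j) 1 : Fin n →₀ ℕ) (w i) :=
      Finset.single_le_sum (f := fun j => (Finsupp.single (w j) 1 : Fin n →₀ ℕ) (w i))
        (fun _ _ => Nat.zero_le _) (mem_univ i)
    rw [Finsupp.single_eq_same] at h1
    omega

theorem supp_mon (w : Fin (δ + 1) → Fin n) : (mon w).support = univ.image w := by
  ext v
  rw [mem_supp_mon]
  simp

theorem prod_X {R : Type*} [CommRing R] (w : Fin (δ + 1) → Fin n) :
    (∏ i, X (w i) : MvPolynomial (Fin n) R) = monomial (mon w) 1 := by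
  unfold mon
  rw [monomial_sum_one]
  rfl

/-- rainbow -/
def Rb (κ : Fin n → Fin (δ + 1)) (w : Fin (δ + 1) → Fin n) : Prop := ∀ i, κ (w i) = i

instance (κ : Fin n → Fin (δ + 1)) (w : Fin (δ + 1) → Fin n) : Decidable (Rb κ w) := by
  unfold Rb
  infer_instance

theorem mon_inj {κ : Fin n → Fin (δ + 1)} {w w' : Fin (δ + 1) → Fin n} (h : Rb κ w) (h' : Rb κ w')
    (he : mon w = mon w') : w = w' := by
  funext i
  have h1 : w i ∈ (mon w').support := by
    rw [← he, mem_supp_mon]
    exact ⟨i, rfl⟩
  rw [mem_supp_mon] at h1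
  obtain ⟨j, hj⟩ := h1
  have h2 : j = i := by
    rw [← h' j, hj, h i]
  rw [← hj, h2]

theorem coeff_srI {k : Type*} [Field k] {L : Finset (Finset (Fin n))}
    (hL : IsCx L) {p : MvPolynomial (Fin n) k} (hp : p ∈ srI k L) :
    ∀ m : Fin n →₀ ℕ, m.support ∈ L → coeff m p = 0 := by
  unfold srI at hp
  induction hp using Submodule.span_induction with
  | mem x hx =>
    obtain ⟨σ, hσ, rfl⟩ := hx
    intro m hm
    have e : (∏ v ∈ σ, X v : MvPolynomial (Fin n) k) = monomial (∑ v ∈ σ, Finsupp.single v 1) 1 := by
      rw [monomial_sum_one]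
      rfl
    rw [e, coeff_monomial, if_neg]
    rintro rfl
    apply hσ
    have : (∑ v ∈ σ, Finsupp.single v 1 : Fin n →₀ ℕ).support = σ := by
      ext v
      rw [Finsupp.mem_support_iff, Finsupp.finsetSum_apply]
      simp [Finsupp.single_apply]
    rwa [this] at hm
  | zero => intro m _; simp
  | add x y _ _ hx hy =>
    intro m hm
    rw [coeff_add, hx m hm, hy m hm, add_zero]
  | smul a x _ hx =>
    intro m hm
    rw [smul_eq_mul, coeff_mul]
    apply Finset.sum_eq_zero
    intro ab hab
    rw [Finset.HasAntidiagonal.mem_antidiagonal] at hab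
    rw [hx ab.2 (hL.2 _ hm _ ?_), mul_zero]
    intro v hv
    rw [Finsupp.mem_support_iff] at hv ⊢
    rw [← hab, Finsupp.add_apply]
    omega

theorem coeff_theta {k : Type*} [Field k] {κ : Fin n → Fin (δ + 1)} (f : MvPolynomial (Fin n) k)
    (i0 : Fin (δ + 1)) (a : Fin n → k) {w : Fin (δ + 1) → Fin n} (hw : Rb κ w) :
    coeff (mon w) (f * ∑ v ∈ univ.filter (fun v => κ v = i0), C (a v) * X v) =
      coeff (moff i0 w) f * a (w i0) := by
  rw [Finset.mul_sum, coeff_sum]
  have h1 : ∀ v ∈ univ.filter (fun v => κ v = i0), coeff (mon w) (f * (C (a v) * X v)) =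
      if v = w i0 then coeff (moff i0 w) f * a (w i0) else 0 := by
    intro v hv
    rw [mem_filter] at hv
    have e : f * (C (a v) * X v) = C (a v) * (f * X v) := by ring
    rw [e, coeff_C_mul, coeff_mul_X']
    by_cases h : v = w i0
    · subst h
      rw [if_pos ((mem_supp_mon _ _).mpr ⟨i0, rfl⟩), if_pos rfl, mon_eq i0,
        add_tsub_cancel_left, mul_comm]
    · rw [if_neg h, if_neg, mul_zero]
      intro h2
      obtain ⟨j, hj⟩ := (mem_supp_mon _ _).mp h2
      apply h
      have : j = i0 := by
        rw [← hw j, hj]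
        exact hv.2
      rw [← hj, this]
  rw [Finset.sum_congr rfl h1, Finset.sum_ite_eq' _ (w i0), if_pos]
  rw [mem_filter]
  exact ⟨mem_univ _, hw i0⟩

/-- good: rainbow face -/
def Gd (κ : Fin n → Fin (δ + 1)) (K : Finset (Finset (Fin n))) (w : Fin (δ + 1) → Fin n) : Prop :=
  Rb κ w ∧ univ.image w ∈ K

instance (κ : Fin n → Fin (δ + 1)) (K : Finset (Finset (Fin n))) (w : Fin (δ + 1) → Fin n) :
    Decidable (Gd κ K w) := by
  unfold Gd
  infer_instance

/-- condition for a nonzero entry -/
def Cd (κ : Fin n → Fin (δ + 1)) (i0 : Fin (δ + 1)) (u w : Fin (δ + 1) → Fin n) : Prop :=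
  Rb κ u ∧ (∀ i, i ≠ i0 → u i = w i) ∧ κ (w i0) = i0

instance (κ : Fin n → Fin (δ + 1)) (i0 : Fin (δ + 1)) (u w : Fin (δ + 1) → Fin n) :
    Decidable (Cd κ i0 u w) := by
  unfold Cd
  infer_instance

theorem Cd.rb {κ : Fin n → Fin (δ + 1)} {i0 : Fin (δ + 1)} {u w : Fin (δ + 1) → Fin n}
    (h : Cd κ i0 u w) : Rb κ w := by
  intro i
  by_cases hi : i = i0
  · rw [hi]
    exact h.2.2
  · rw [← h.2.1 i hi]
    exact h.1 i

/-- the rows -/
noncomputable def Row {R : Type*} [CommRing R] (κ : Fin n → Fin (δ + 1))
    (K : Finset (Finset (Fin n))) (a : (Fin (δ + 1) × Fin 2) × Fin n → R) :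
    (((Fin (δ + 1) × Fin 2) × (Fin (δ + 1) → Fin n)) ⊕ (Fin (δ + 1) → Fin n)) →
    (Fin (δ + 1) → Fin n) → R
  | Sum.inl (ij, u), w => if Cd κ ij.1 u w then a (ij, w ij.1) else 0
  | Sum.inr w0, w => if w = w0 ∧ ¬ Gd κ K w0 then 1 else 0

theorem Row_map {R S : Type*} [CommRing R] [CommRing S] (f : R →+* S) (κ : Fin n → Fin (δ + 1))
    (K : Finset (Finset (Fin n))) (a : (Fin (δ + 1) × Fin 2) × Fin n → R) (N) (w) :
    f (Row κ K a N w) = Row κ K (fun x => f (a x)) N w := by
  rcases N with ⟨ij, u⟩ | w0
  · simp only [Row]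
    split_ifs <;> simp
  · simp only [Row]
    split_ifs <;> simp

/-- step 1: the rows span in characteristic 2 -/
theorem span_all {k : Type} [Field k] (κ : Fin n → Fin (δ + 1)) {K : Finset (Finset (Fin n))}
    (hK : IsCx K) (a : (Fin (δ + 1) × Fin 2) × Fin n → k)
    (h : ∀ w : Fin (δ + 1) → Fin n, Rb κ w → (∏ i, X (w i) : MvPolynomial (Fin n) k) ∈
      srI k K ⊔ Ideal.span (Set.range (fun ij : Fin (δ + 1) × Fin 2 =>
        ∑ v ∈ univ.filter (fun v => κ v = ij.1), C (a (ij, v)) * X v)))
    (y : (Fin (δ + 1) → Fin n) → k) : y ∈ Submodule.span k (Set.range (Row κ K a)) := by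
  set Sp := Submodule.span k (Set.range (Row κ K a)) with hSp
  have hrow : ∀ N, Row κ K a N ∈ Sp := fun N => Submodule.subset_span ⟨N, rfl⟩
  have hbad : ∀ z : (Fin (δ + 1) → Fin n) → k, (∀ w, Gd κ K w → z w = 0) → z ∈ Sp := by
    intro z hz
    have e : z = ∑ w, z w • Row κ K a (Sum.inr w) := by
      funext w'
      rw [Finset.sum_apply, Finset.sum_eq_single w']
      · simp only [Pi.smul_apply, Row, smul_eq_mul, true_and]
        by_cases hg : Gd κ K w'
        · rw [hz w' hg, zero_mul]
        · rw [if_pos hg, mul_one]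
      · intro w _ hne
        simp only [Pi.smul_apply, Row, smul_eq_mul]
        rw [if_neg (fun h => hne h.1.symm), mul_zero]
      · intro h
        exact absurd (mem_univ _) h
    rw [e]
    exact Submodule.sum_mem _ (fun w _ => Submodule.smul_mem _ _ (hrow _))
  have hunit : ∀ w, Pi.single w (1 : k) ∈ Sp := by
    intro w
    by_cases hw : Gd κ K w
    · obtain ⟨s, hs, t, ht, hst⟩ := Submodule.mem_sup.mp (h w hw.1)
      obtain ⟨f, hf⟩ := (Ideal.mem_span_range_iff_exists_fun).mp ht
      -- the functional
      set S : (Fin (δ + 1) → Fin n) → k := ∑ ij : Fin (δ + 1) × Fin 2, ∑ u : Fin (δ + 1) → Fin n,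
        (if u ij.1 = w ij.1 then coeff (moff ij.1 u) (f ij) else 0) • Row κ K a (Sum.inl (ij, u))
        with hS
      have hSmem : S ∈ Sp := Submodule.sum_mem _ (fun ij _ => Submodule.sum_mem _ (fun u _ =>
        Submodule.smul_mem _ _ (hrow _)))
      have hSval : ∀ w', Gd κ K w' → S w' = ∑ ij : Fin (δ + 1) × Fin 2,
          coeff (moff ij.1 w') (f ij) * a (ij, w' ij.1) := by
        intro w' hw'
        rw [hS, Finset.sum_apply]
        apply Finset.sum_congr rfl
        intro ij _
        rw [Finset.sum_apply, Finset.sum_eq_single (Function.update w' ij.1 (w ij.1))]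
        · simp only [Pi.smul_apply, Row, smul_eq_mul, Function.update_self]
          rw [if_pos trivial, if_pos]
          · congr 2
            unfold moff
            apply Finset.sum_congr rfl
            intro i hi
            rw [Function.update_of_ne (ne_of_mem_erase hi)]
          · refine ⟨?_, ?_, hw'.1 _⟩
            · intro i
              by_cases hi : i = ij.1
              · subst hi
                rw [Function.update_self]
                exact hw.1 _
              · rw [Function.update_of_ne hi]
                exact hw'.1 i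
            · intro i hi
              rw [Function.update_of_ne hi]
        · intro u _ hu
          simp only [Pi.smul_apply, Row, smul_eq_mul]
          split_ifs with h1 h2
          · exfalso
            apply hu
            funext i
            by_cases hi : i = ij.1
            · subst hi
              rw [Function.update_self]
              exact h1
            · rw [Function.update_of_ne hi]
              exact h2.2.1 i hi
          · rw [mul_zero]
          · rw [zero_mul]
          · rw [zero_mul]
        · intro h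
          exact absurd (mem_univ _) h
      have hval : ∀ w', Gd κ K w' → S w' = Pi.single (M := fun _ => k) w (1 : k) w' := by
        intro w' hw'
        have h1 := congrArg (coeff (mon w')) hst
        rw [coeff_add, coeff_srI hK hs _ (by rw [supp_mon]; exact hw'.2), zero_add, ← hf,
          coeff_sum, prod_X, coeff_monomial] at h1
        have h2 : ∀ ij : Fin (δ + 1) × Fin 2, coeff (mon w') (f ij *
            ∑ v ∈ univ.filter (fun v => κ v = ij.1), C (a (ij, v)) * X v) =
            coeff (moff ij.1 w') (f ij) * a (ij, w' ij.1) := fun ij =>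
          coeff_theta (f ij) ij.1 (fun v => a (ij, v)) hw'.1
        simp only [h2] at h1
        rw [hSval w' hw', h1]
        by_cases he : w' = w
        · subst he
          rw [if_pos rfl, Pi.single_eq_same]
        · rw [if_neg, Pi.single_eq_of_ne he]
          intro h3
          exact he (mon_inj hw.1 hw'.1 h3).symm
      have e : Pi.single w (1 : k) = S + (Pi.single w (1 : k) - S) := by abel
      rw [e]
      apply Submodule.add_mem _ hSmem
      apply hbad
      intro w' hw'
      rw [Pi.sub_apply, hval w' hw', sub_self]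
    · apply hbad
      intro w' hw'
      apply Pi.single_eq_of_ne
      rintro rfl
      exact hw hw'
  have e : y = ∑ w, y w • Pi.single w (1 : k) := by
    funext w'
    rw [Finset.sum_apply, Finset.sum_eq_single w']
    · simp
    · intro w _ hne
      rw [Pi.smul_apply, Pi.single_eq_of_ne hne.symm, smul_zero]
    · intro h
      exact absurd (mem_univ _) h
  rw [e]
  exact Submodule.sum_mem _ (fun w _ => Submodule.smul_mem _ _ (hunit w))

theorem rb_inj {κ : Fin n → Fin (δ + 1)} {w : Fin (δ + 1) → Fin n} (h : Rb κ w) :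
    Function.Injective w := by
  intro i j hij
  rw [← h i, ← h j, hij]

theorem prod_mem_srI {k : Type*} [Field k] {κ : Fin n → Fin (δ + 1)} {K : Finset (Finset (Fin n))}
    {w : Fin (δ + 1) → Fin n} (h : Rb κ w) (hK : univ.image w ∉ K) :
    (∏ i, X (w i) : MvPolynomial (Fin n) k) ∈ srI k K := by
  apply Ideal.subset_span
  refine ⟨univ.image w, hK, ?_⟩
  rw [Finset.prod_image (fun i _ j _ hij => rb_inj h hij)]

/-- step 2 -/
theorem step2 {k : Type} [Field k] (κ : Fin n → Fin (δ + 1)) {K : Finset (Finset (Fin n))}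
    (a : (Fin (δ + 1) × Fin 2) × Fin n → k)
    (h : ∀ y : (Fin (δ + 1) → Fin n) → k, y ∈ Submodule.span k (Set.range (Row κ K a)))
    (w : Fin (δ + 1) → Fin n) (hw : Rb κ w) :
    ∃ q : Fin (δ + 1) × Fin 2 → MvPolynomial (Fin n) k,
      (∀ ij, q ij ∈ Submodule.span k {y | ∃ u : Fin (δ + 1) → Fin n, (∀ i, κ (u i) = i) ∧
        y = ∏ i ∈ univ.erase ij.1, X (u i)}) ∧
      ∏ i, X (w i) - ∑ ij, q ij * (∑ v ∈ univ.filter (fun v => κ v = ij.1), C (a (ij, v)) * X v)
        ∈ srI k K := by
  by_cases hwK : univ.image w ∈ K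
  · obtain ⟨b, hb⟩ := (Submodule.mem_span_range_iff_exists_fun k).mp (h (Pi.single w 1))
    refine ⟨fun ij => ∑ u : Fin (δ + 1) → Fin n, b (Sum.inl (ij, u)) •
      (if Rb κ u then ∏ i ∈ univ.erase ij.1, X (u i) else 0), ?_, ?_⟩
    · intro ij
      apply Submodule.sum_mem
      intro u _
      apply Submodule.smul_mem
      split_ifs with hu
      · exact Submodule.subset_span ⟨u, hu, rfl⟩
      · exact Submodule.zero_mem _
    -- the linear map
    set Φ : ((Fin (δ + 1) → Fin n) → k) →ₗ[k] MvPolynomial (Fin n) k :=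
      ∑ w' : Fin (δ + 1) → Fin n, (LinearMap.proj w' : ((Fin (δ + 1) → Fin n) → k) →ₗ[k] k).smulRight
        (if Gd κ K w' then ∏ i, X (w' i) else 0) with hΦ
    have hΦv : ∀ y, Φ y = ∑ w' : Fin (δ + 1) → Fin n, y w' •
        (if Gd κ K w' then ∏ i, X (w' i) else 0 : MvPolynomial (Fin n) k) := by
      intro y
      rw [hΦ, LinearMap.sum_apply]
      rfl
    have h1 : Φ (Pi.single w 1) = ∏ i, X (w i) := by
      rw [hΦv, Finset.sum_eq_single w]
      · rw [Pi.single_eq_same, one_smul, if_pos ⟨hw, hwK⟩]
      · intro w' _ hne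
        rw [Pi.single_eq_of_ne hne, zero_smul]
      · intro h
        exact absurd (mem_univ _) h
    have h2 : ∀ w0, Φ (Row κ K a (Sum.inr w0)) = 0 := by
      intro w0
      rw [hΦv]
      apply Finset.sum_eq_zero
      intro w' _
      simp only [Row]
      split_ifs with g1 g2
      · exact absurd g2 (by rw [g1.1]; exact g1.2)
      · rw [smul_zero]
      · rw [zero_smul]
      · rw [zero_smul]
    have h3 : ∀ ij : Fin (δ + 1) × Fin 2, ∀ u : Fin (δ + 1) → Fin n,
        Φ (Row κ K a (Sum.inl (ij, u))) - (if Rb κ u then ∏ i ∈ univ.erase ij.1, X (u i) else 0) *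
          (∑ v ∈ univ.filter (fun v => κ v = ij.1), C (a (ij, v)) * X v) ∈ srI k K := by
      intro ij u
      by_cases hu : Rb κ u
      · rw [if_pos hu]
        have e1 : (∏ i ∈ univ.erase ij.1, X (u i)) *
            (∑ v ∈ univ.filter (fun v => κ v = ij.1), C (a (ij, v)) * X v) =
            ∑ w' ∈ univ.filter (fun w' => Cd κ ij.1 u w'),
              a (ij, w' ij.1) • (∏ i, X (w' i) : MvPolynomial (Fin n) k) := by
          rw [Finset.mul_sum]
          apply Finset.sum_nbij' (fun v => Function.update u ij.1 v) (fun w' => w' ij.1)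
          · intro v hv
            rw [mem_filter] at hv ⊢
            refine ⟨mem_univ _, hu, ?_, ?_⟩
            · intro i hi
              rw [Function.update_of_ne hi]
            · rw [Function.update_self]
              exact hv.2
          · intro w' hw'
            rw [mem_filter] at hw' ⊢
            exact ⟨mem_univ _, hw'.2.2.2⟩
          · intro v _
            rw [Function.update_self]
          · intro w' hw'
            rw [mem_filter] at hw'
            funext i
            by_cases hi : i = ij.1
            · subst hi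
              rw [Function.update_self]
            · rw [Function.update_of_ne hi]
              exact hw'.2.2.1 i hi
          · intro v _
            rw [Function.update_self, ← Finset.mul_prod_erase univ _ (mem_univ ij.1),
              Function.update_self, smul_eq_C_mul]
            have e2 : ∏ i ∈ univ.erase ij.1, (X (Function.update u ij.1 v i) :
                MvPolynomial (Fin n) k) = ∏ i ∈ univ.erase ij.1, X (u i) := by
              apply Finset.prod_congr rfl
              intro i hi
              rw [Function.update_of_ne (ne_of_mem_erase hi)]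
            rw [e2]
            ring
        have e2 : Φ (Row κ K a (Sum.inl (ij, u))) = ∑ w' ∈ univ.filter (fun w' => Cd κ ij.1 u w'),
            a (ij, w' ij.1) • (if Gd κ K w' then ∏ i, X (w' i) else 0 : MvPolynomial (Fin n) k) := by
          rw [hΦv, Finset.sum_filter]
          apply Finset.sum_congr rfl
          intro w' _
          simp only [Row]
          split_ifs
          · rfl
          · rfl
          · rw [zero_smul]
          · rw [zero_smul]
        rw [e1, e2, ← Finset.sum_sub_distrib]
        apply Ideal.sum_mem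
        intro w' hw'
        rw [mem_filter] at hw'
        split_ifs with hg
        · rw [sub_self]
          exact Ideal.zero_mem _
        · rw [smul_zero, zero_sub, smul_eq_C_mul]
          apply Submodule.neg_mem
          apply Ideal.mul_mem_left
          apply prod_mem_srI hw'.2.rb
          intro h4
          exact hg ⟨hw'.2.rb, h4⟩
      · rw [if_neg hu, zero_mul, sub_zero]
        have e3 : Row κ K a (Sum.inl (ij, u)) = 0 := by
          funext w'
          simp only [Row]
          rw [if_neg (fun h => hu h.1)]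
          rfl
        rw [e3, map_zero]
        exact Ideal.zero_mem _
    have e4 : (∏ i, X (w i) : MvPolynomial (Fin n) k) = ∑ ij : Fin (δ + 1) × Fin 2,
        ∑ u : Fin (δ + 1) → Fin n, b (Sum.inl (ij, u)) • Φ (Row κ K a (Sum.inl (ij, u))) := by
      rw [← h1, ← hb, map_sum, Fintype.sum_sum_type, Fintype.sum_prod_type]
      simp only [map_smul, h2, smul_zero, Finset.sum_const_zero, add_zero]
    rw [e4, ← Finset.sum_sub_distrib]
    apply Ideal.sum_mem
    intro ij _
    rw [Finset.sum_mul, ← Finset.sum_sub_distrib]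
    apply Ideal.sum_mem
    intro u _
    rw [smul_mul_assoc, ← smul_sub, smul_eq_C_mul]
    exact Ideal.mul_mem_left _ _ (h3 ij u)
  · refine ⟨fun _ => 0, fun _ => Submodule.zero_mem _, ?_⟩
    simp only [zero_mul, Finset.sum_const_zero, sub_zero]
    exact prod_mem_srI hw hwK

theorem bal0 (hspan : StSpan) (hb : StBal2) : StBal0 := by
  intro n δ K κ hK hE
  obtain ⟨F, hF0, hF⟩ := hspan ((Fin (δ + 1) × Fin 2) × Fin n)
    (((Fin (δ + 1) × Fin 2) × (Fin (δ + 1) → Fin n)) ⊕ (Fin (δ + 1) → Fin n))
    (Fin (δ + 1) → Fin n) (Row κ K (fun x => (X x : MvPolynomial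
      ((Fin (δ + 1) × Fin 2) × Fin n) ℤ))) (by
      intro w
      have h1 := span_all κ hK (fun x => algebraMap (MvPolynomial
        ((Fin (δ + 1) × Fin 2) × Fin n) (ZMod 2)) (FractionRing (MvPolynomial
        ((Fin (δ + 1) × Fin 2) × Fin n) (ZMod 2))) (X x)) (fun w hw => hb n δ K κ hK hE w hw) w
      have e : (fun i => fun j : Fin (δ + 1) → Fin n => algebraMap (MvPolynomial
        ((Fin (δ + 1) × Fin 2) × Fin n) (ZMod 2)) (FractionRing (MvPolynomial
        ((Fin (δ + 1) × Fin 2) × Fin n) (ZMod 2))) (MvPolynomial.map (Int.castRingHom (ZMod 2))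
          (Row κ K (fun x => (X x : MvPolynomial ((Fin (δ + 1) × Fin 2) × Fin n) ℤ)) i j))) =
        Row κ K (fun x => algebraMap (MvPolynomial
        ((Fin (δ + 1) × Fin 2) × Fin n) (ZMod 2)) (FractionRing (MvPolynomial
        ((Fin (δ + 1) × Fin 2) × Fin n) (ZMod 2))) (X x)) := by
        funext i j
        rw [Row_map, Row_map]
        simp only [MvPolynomial.map_X]
      rw [e]
      exact h1)
  refine ⟨F, hF0, ?_⟩
  intro k _ _ c hc w hw
  have h1 := hF k c hc
  have e : (fun i => fun j : Fin (δ + 1) → Fin n => aeval c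
      (Row κ K (fun x => (X x : MvPolynomial ((Fin (δ + 1) × Fin 2) × Fin n) ℤ)) i j)) =
      Row κ K c := by
    funext i j
    have := Row_map (aeval c : MvPolynomial ((Fin (δ + 1) × Fin 2) × Fin n) ℤ →ₐ[ℤ] k).toRingHom
      κ K (fun x => (X x : MvPolynomial ((Fin (δ + 1) × Fin 2) × Fin n) ℤ)) i j
    refine this.trans ?_
    congr 1
    funext x
    simp
  rw [e] at h1
  exact step2 κ c h1 w hw

end Pool.Agent.W932.KS.Bal0
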